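import Mathlib

namespace Pool.Agent.Results.MP_742338_co.NoSimpleSwaps

set_option linter.unusedSectionVars false

variable {V : Type} [DecidableEq V]

/-- The two end labels of an edge: `ends s(a,b) = {a,b}`; a loop contributes its vertex twice. -/
def ends (e : Sym2 V) : Multiset V :=
  Sym2.lift ⟨fun a b => ({a, b} : Multiset V), fun a b => Multiset.pair_comm a b⟩ e

/-- All half-edge labels of a loopy multigraph (= multiset of edges). -/
def labels (G : Multiset (Sym2 V)) : Multiset V := G.bind ends

/-- The degree (number of half-edges) of `v`. -/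
def deg (G : Multiset (Sym2 V)) (v : V) : ℕ := (labels G).count v

/-- `e` is a simple edge of `G`: not a loop, multiplicity one. -/
def SimpleEdge (G : Multiset (Sym2 V)) (e : Sym2 V) : Prop := ¬ e.IsDiag ∧ G.count e = 1

/-- All edges of `G` are simple. -/
def IsSimple (G : Multiset (Sym2 V)) : Prop := ∀ e ∈ G, SimpleEdge G e

/-- The degree sequence of `G` is the degree sequence of a simple graph. -/
def Graphical (G : Multiset (Sym2 V)) : Prop :=
  ∃ (H : Multiset (Sym2 V)) (σ : Equiv.Perm V), IsSimple H ∧ ∀ v, deg H (σ v) = deg G v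

/-- `G'` arises from `G` by the double edge swap `(v₁,v₂)(v₃,v₄)`. -/
def Swap (G G' : Multiset (Sym2 V)) (v₁ v₂ v₃ v₄ : V) : Prop :=
  ∃ R : Multiset (Sym2 V), G = s(v₁, v₂) ::ₘ s(v₃, v₄) ::ₘ R ∧ G' = s(v₂, v₃) ::ₘ s(v₄, v₁) ::ₘ R

/-- some double edge swap leads from `G` to `G'` -/
def Step (G G' : Multiset (Sym2 V)) : Prop := ∃ v₁ v₂ v₃ v₄, Swap G G' v₁ v₂ v₃ v₄

/-- some double edge swap whose two removed edges are not both simple leads from `G` to `G'` -/
def GoodStep (G G' : Multiset (Sym2 V)) : Prop := ∃ v₁ v₂ v₃ v₄, Swap G G' v₁ v₂ v₃ v₄ ∧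
  ¬ (SimpleEdge G s(v₁, v₂) ∧ SimpleEdge G s(v₃, v₄))

/-- `r 0 = G, r 1, …, r n` is a route to simplicity of length `n` with steps of kind `St`. -/
def IsRoute (St : Multiset (Sym2 V) → Multiset (Sym2 V) → Prop) (G : Multiset (Sym2 V)) (n : ℕ)
    (r : ℕ → Multiset (Sym2 V)) : Prop :=
  r 0 = G ∧ (∀ i < n, St (r i) (r (i + 1))) ∧ IsSimple (r n)

/-! ### labels -/

lemma ends_mk (a b : V) : ends s(a, b) = {a, b} := rfl

lemma ends_mk' (a b : V) : ends s(a, b) = {a} + {b} := rfl

lemma labels_cons (e : Sym2 V) (A : Multiset (Sym2 V)) :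
    labels (e ::ₘ A) = ends e + labels A := Multiset.cons_bind _ _ _

lemma labels_add (A B : Multiset (Sym2 V)) : labels (A + B) = labels A + labels B :=
  Multiset.add_bind _ _ _

lemma labels_zero : labels (0 : Multiset (Sym2 V)) = 0 := rfl

lemma labels_singleton (e : Sym2 V) : labels {e} = ends e := Multiset.singleton_bind _ _

lemma card_ends (e : Sym2 V) : (ends e).card = 2 := by
  induction e with
  | _ a b => rfl

lemma card_labels (A : Multiset (Sym2 V)) : (labels A).card = 2 * A.card := by
  induction A using Multiset.induction_on with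
  | empty => rfl
  | cons e A ih =>
    rw [labels_cons, Multiset.card_add, ih, card_ends, Multiset.card_cons]; ring

lemma ends_inj {e f : Sym2 V} (h : ends e = ends f) : e = f := by
  induction e with
  | _ a b =>
    induction f with
    | _ c d =>
      rw [ends_mk, ends_mk] at h
      have ha : a ∈ ({c, d} : Multiset V) := h ▸ (by simp)
      simp only [Multiset.insert_eq_cons, Multiset.mem_cons, Multiset.mem_singleton] at ha
      rcases ha with rfl | rfl
      · have : ({b} : Multiset V) = {d} := (Multiset.cons_inj_right a).mp h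
        rw [Multiset.singleton_inj] at this
        rw [this]
      · rw [Multiset.pair_comm c a] at h
        have : ({b} : Multiset V) = {c} := (Multiset.cons_inj_right a).mp h
        rw [Multiset.singleton_inj] at this
        rw [this, Sym2.eq_swap]

lemma mem_labels {v : V} {A : Multiset (Sym2 V)} (h : v ∈ labels A) :
    ∃ y, s(v, y) ∈ A := by
  unfold labels at h
  rw [Multiset.mem_bind] at h
  obtain ⟨e, he, hv⟩ := h
  induction e with
  | _ a b =>
    rw [ends_mk] at hv
    simp only [Multiset.insert_eq_cons, Multiset.mem_cons, Multiset.mem_singleton] at hv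
    rcases hv with rfl | rfl
    · exact ⟨b, he⟩
    · exact ⟨a, by rwa [Sym2.eq_swap]⟩

/-! ### plans -/

/-- A plan: a decomposition of `G` and `H` into blocks with the same half-edge labels. -/
structure Plan (G H : Multiset (Sym2 V))
    (L : Multiset (Multiset (Sym2 V) × Multiset (Sym2 V))) : Prop where
  ne : ∀ b ∈ L, b.1 ≠ 0
  lab : ∀ b ∈ L, labels b.1 = labels b.2
  src : L.bind Prod.fst = G
  tgt : L.bind Prod.snd = H

lemma bind_card_ge (L : Multiset (Multiset (Sym2 V) × Multiset (Sym2 V)))
    (h : ∀ b ∈ L, b.1 ≠ 0) : L.card ≤ (L.bind Prod.fst).card := by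
  induction L using Multiset.induction_on with
  | empty => simp
  | cons b L ih =>
    rw [Multiset.cons_bind, Multiset.card_add, Multiset.card_cons]
    have h1 := ih (fun c hc => h c (Multiset.mem_cons_of_mem hc))
    have h2 : 0 < b.1.card := Multiset.card_pos.mpr (h b (Multiset.mem_cons_self _ _))
    omega

lemma Plan.card_le {G H L} (p : Plan (V := V) G H L) : L.card ≤ G.card := by
  rw [← p.src]; exact bind_card_ge L p.ne

/-- the plan with singleton blocks -/
lemma plan_refl (G : Multiset (Sym2 V)) :
    Plan G G (G.map (fun e => (({e} : Multiset (Sym2 V)), ({e} : Multiset (Sym2 V))))) where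
  ne := by
    intro b hb
    rw [Multiset.mem_map] at hb
    obtain ⟨e, _, rfl⟩ := hb
    simp
  lab := by
    intro b hb
    rw [Multiset.mem_map] at hb
    obtain ⟨e, _, rfl⟩ := hb
    rfl
  src := by
    rw [Multiset.bind_map]
    exact (Multiset.bind_singleton G id).trans (Multiset.map_id G)
  tgt := by
    rw [Multiset.bind_map]
    exact (Multiset.bind_singleton G id).trans (Multiset.map_id G)

lemma plan_of_labels {G H : Multiset (Sym2 V)} (h : labels G = labels H) : ∃ L, Plan G H L := by
  by_cases hG : G = 0
  · subst hG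
    have hH : H = 0 := by
      have h1 := card_labels H
      rw [← h, labels_zero] at h1
      have : H.card = 0 := by rw [Multiset.card_zero] at h1; omega
      exact Multiset.card_eq_zero.mp this
    subst hH
    exact ⟨0, by simp, by simp, rfl, rfl⟩
  · refine ⟨{(G, H)}, ?_, ?_, ?_, ?_⟩
    · intro b hb; rw [Multiset.mem_singleton] at hb; subst hb; exact hG
    · intro b hb; rw [Multiset.mem_singleton] at hb; subst hb; exact h
    · simp
    · simp

/-- a full plan forces equality -/
lemma full_eq (L : Multiset (Multiset (Sym2 V) × Multiset (Sym2 V)))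
    (h : ∀ b ∈ L, b.1 ≠ 0) (hl : ∀ b ∈ L, labels b.1 = labels b.2)
    (hc : L.card = (L.bind Prod.fst).card) : L.bind Prod.fst = L.bind Prod.snd := by
  induction L using Multiset.induction_on with
  | empty => rfl
  | cons b L ih =>
    have hb : 0 < b.1.card := Multiset.card_pos.mpr (h b (Multiset.mem_cons_self _ _))
    have hL := bind_card_ge L (fun c hc => h c (Multiset.mem_cons_of_mem hc))
    rw [Multiset.cons_bind, Multiset.card_add, Multiset.card_cons] at hc
    have h1 : b.1.card = 1 := by omega
    have h2 : b.2.card = 1 := by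
      have e1 := card_labels b.1
      have e2 := card_labels b.2
      rw [hl b (Multiset.mem_cons_self _ _)] at e1
      omega
    obtain ⟨e, he⟩ := Multiset.card_eq_one.mp h1
    obtain ⟨f, hf⟩ := Multiset.card_eq_one.mp h2
    have hlab := hl b (Multiset.mem_cons_self _ _)
    rw [he, hf, labels_singleton, labels_singleton] at hlab
    have hef := ends_inj hlab
    rw [Multiset.cons_bind, Multiset.cons_bind, he, hf, hef,
      ih (fun c hc => h c (Multiset.mem_cons_of_mem hc))
        (fun c hc => hl c (Multiset.mem_cons_of_mem hc)) (by omega)]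

lemma swap_ends (v₁ v₂ v₃ v₄ : V) :
    ends s(v₁, v₂) + ends s(v₃, v₄) = ends s(v₂, v₃) + ends s(v₄, v₁) := by
  simp only [ends_mk']
  abel

/-- A swap changes the best number of blocks by at most one. -/
lemma Plan.step {G G' H : Multiset (Sym2 V)} (hs : Step G G')
    {L : Multiset (Multiset (Sym2 V) × Multiset (Sym2 V))} (p : Plan G' H L) :
    ∃ L', Plan G H L' ∧ L.card ≤ L'.card + 1 := by
  obtain ⟨v₁, v₂, v₃, v₄, R, hG, hG'⟩ := hs
  obtain ⟨ne, lab, src, tgt⟩ := p
  have m1 : s(v₂, v₃) ∈ L.bind Prod.fst := by rw [src, hG']; simp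
  rw [Multiset.mem_bind] at m1
  obtain ⟨b, hb, m1⟩ := m1
  obtain ⟨L1, rfl⟩ := Multiset.exists_cons_of_mem hb
  obtain ⟨A0, B⟩ := b
  simp only at m1
  obtain ⟨A, rfl⟩ := Multiset.exists_cons_of_mem m1
  have lab1 := lab _ (Multiset.mem_cons_self _ _)
  simp only [labels_cons] at lab1
  rw [Multiset.cons_bind] at src tgt
  simp only at src tgt
  rw [hG', Multiset.cons_add, Multiset.cons_inj_right] at src
  have m2 : s(v₄, v₁) ∈ A + L1.bind Prod.fst := by rw [src]; simp
  have hsw := swap_ends v₁ v₂ v₃ v₄
  rw [Multiset.mem_add] at m2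
  rcases m2 with m2 | m2
  · obtain ⟨A2, rfl⟩ := Multiset.exists_cons_of_mem m2
    rw [Multiset.cons_add, Multiset.cons_inj_right] at src
    refine ⟨(s(v₁, v₂) ::ₘ s(v₃, v₄) ::ₘ A2, B) ::ₘ L1, ⟨?_, ?_, ?_, ?_⟩, ?_⟩
    · intro c hc
      rw [Multiset.mem_cons] at hc
      rcases hc with rfl | hc
      · exact Multiset.cons_ne_zero
      · exact ne c (Multiset.mem_cons_of_mem hc)
    · intro c hc
      rw [Multiset.mem_cons] at hc
      rcases hc with rfl | hc
      · simp only [labels_cons]
        rw [← lab1, labels_cons, ← add_assoc, hsw, add_assoc]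
      · exact lab c (Multiset.mem_cons_of_mem hc)
    · rw [Multiset.cons_bind, hG, ← src]
      simp only [Multiset.cons_add]
    · rw [Multiset.cons_bind]; exact tgt
    · simp
  · rw [Multiset.mem_bind] at m2
    obtain ⟨b2, hb2, m2⟩ := m2
    obtain ⟨L2, rfl⟩ := Multiset.exists_cons_of_mem hb2
    obtain ⟨A20, B2⟩ := b2
    simp only at m2
    obtain ⟨A2, rfl⟩ := Multiset.exists_cons_of_mem m2
    have lab2 := lab _ (Multiset.mem_cons_of_mem (Multiset.mem_cons_self _ _))
    simp only [labels_cons] at lab2
    rw [Multiset.cons_bind] at src tgt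
    simp only at src tgt
    have src' : A + (A2 + L2.bind Prod.fst) = R := by
      rw [Multiset.cons_add, Multiset.add_cons, Multiset.cons_inj_right] at src
      exact src
    refine ⟨(s(v₁, v₂) ::ₘ s(v₃, v₄) ::ₘ (A + A2), B + B2) ::ₘ L2, ⟨?_, ?_, ?_, ?_⟩, ?_⟩
    · intro c hc
      rw [Multiset.mem_cons] at hc
      rcases hc with rfl | hc
      · exact Multiset.cons_ne_zero
      · exact ne c (Multiset.mem_cons_of_mem (Multiset.mem_cons_of_mem hc))
    · intro c hc
      rw [Multiset.mem_cons] at hc
      rcases hc with rfl | hc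
      · simp only [labels_cons, labels_add]
        rw [← lab1, ← lab2, ← add_assoc, hsw]
        abel
      · exact lab c (Multiset.mem_cons_of_mem (Multiset.mem_cons_of_mem hc))
    · rw [Multiset.cons_bind, hG, ← src']
      simp only [Multiset.cons_add]
      rw [add_assoc]
    · rw [Multiset.cons_bind]; simp only; rw [← tgt, add_assoc]
    · simp

/-! ### simple edges -/

lemma IsSimple.not_diag {H : Multiset (Sym2 V)} (h : IsSimple H) {e : Sym2 V} (he : e ∈ H) :
    ¬ e.IsDiag := (h e he).1

lemma isSimple_iff (H : Multiset (Sym2 V)) : IsSimple H ↔ H.Nodup ∧ ∀ e ∈ H, ¬ e.IsDiag := by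
  constructor
  · intro h
    refine ⟨?_, fun e he => (h e he).1⟩
    rw [Multiset.nodup_iff_count_le_one]
    intro e
    by_cases he : e ∈ H
    · exact (h e he).2.le
    · rw [Multiset.count_eq_zero_of_notMem he]; exact Nat.zero_le _
  · rintro ⟨h1, h2⟩ e he
    exact ⟨h2 e he, Multiset.count_eq_one_of_mem h1 he⟩

/-- number of singleton blocks -/
def sing (L : Multiset (Multiset (Sym2 V) × Multiset (Sym2 V))) : ℕ :=
  (L.filter (fun b => b.1.card = 1)).card

/-- Main step. -/
lemma main_step {G H : Multiset (Sym2 V)} {L : Multiset (Multiset (Sym2 V) × Multiset (Sym2 V))}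
    (hH : IsSimple H) (p : Plan G H L)
    (hmax : ∀ H' L', IsSimple H' → Plan G H' L' → L'.card ≤ L.card)
    (hmax2 : ∀ H' L', IsSimple H' → Plan G H' L' → L'.card = L.card → sing L' ≤ sing L)
    (hlt : L.card < G.card) :
    ∃ G' L', GoodStep G G' ∧ Plan G' H L' ∧ L'.card = L.card + 1 := by
  obtain ⟨ne, lab, src, tgt⟩ := p
  -- a block with at least two edges
  have hbig : ∃ b ∈ L, 2 ≤ b.1.card := by
    by_contra hcon
    push Not at hcon
    have : (L.bind Prod.fst).card ≤ L.card := by
      clear src tgt hmax hmax2 hlt lab ne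
      induction L using Multiset.induction_on with
      | empty => simp
      | cons b L ih =>
        rw [Multiset.cons_bind, Multiset.card_add, Multiset.card_cons]
        have h1 := ih (fun c hc => hcon c (Multiset.mem_cons_of_mem hc))
        have h2 := hcon b (Multiset.mem_cons_self _ _)
        omega
    rw [src] at this
    omega
  obtain ⟨b, hb, hb2⟩ := hbig
  obtain ⟨L0, rfl⟩ := Multiset.exists_cons_of_mem hb
  obtain ⟨A, B⟩ := b
  simp only at hb2
  have labAB : labels A = labels B := lab _ (Multiset.mem_cons_self _ _)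
  rw [Multiset.cons_bind] at src tgt
  simp only at src tgt
  have hHs := (isSimple_iff H).mp hH
  -- Claim 1
  have claim1 : ∃ e ∈ A, ¬ SimpleEdge G e := by
    by_contra hcon
    push Not at hcon
    have hA : A.Nodup := by
      rw [Multiset.nodup_iff_count_le_one]
      intro e
      by_cases he : e ∈ A
      · calc A.count e ≤ G.count e := Multiset.count_le_of_le e (by rw [← src]; exact Multiset.le_add_right _ _)
          _ = 1 := (hcon e he).2
          _ ≤ 1 := le_rfl
      · rw [Multiset.count_eq_zero_of_notMem he]; exact Nat.zero_le _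
    -- the new plan with H' = A + rest
    have hplan : Plan G (A + L0.bind Prod.snd)
        (A.map (fun e => (({e} : Multiset (Sym2 V)), ({e} : Multiset (Sym2 V)))) + L0) := by
      have hr := plan_refl A
      refine ⟨?_, ?_, ?_, ?_⟩
      · intro c hc
        rw [Multiset.mem_add] at hc
        rcases hc with hc | hc
        · exact hr.ne c hc
        · exact ne c (Multiset.mem_cons_of_mem hc)
      · intro c hc
        rw [Multiset.mem_add] at hc
        rcases hc with hc | hc
        · exact hr.lab c hc
        · exact lab c (Multiset.mem_cons_of_mem hc)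
      · rw [Multiset.add_bind, hr.src, src]
      · rw [Multiset.add_bind, hr.tgt]
    by_cases hdis : ∀ e ∈ A, e ∉ L0.bind Prod.snd
    · have hsim : IsSimple (A + L0.bind Prod.snd) := by
        rw [isSimple_iff]
        constructor
        · rw [Multiset.nodup_add]
          refine ⟨hA, ?_, ?_⟩
          · exact Multiset.nodup_of_le (by rw [← tgt]; exact Multiset.le_add_left _ _) hHs.1
          · rw [Multiset.disjoint_left]
            intro e he; exact hdis e he
        · intro e he
          rw [Multiset.mem_add] at he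
          rcases he with he | he
          · exact (hcon e he).1
          · exact hHs.2 e (by rw [← tgt, Multiset.mem_add]; exact Or.inr he)
      have := hmax _ _ hsim hplan
      rw [Multiset.card_add, Multiset.card_map, Multiset.card_cons] at this
      omega
    · push Not at hdis
      obtain ⟨e, heA, heL⟩ := hdis
      rw [Multiset.mem_bind] at heL
      obtain ⟨b', hb', heB'⟩ := heL
      obtain ⟨L1, rfl⟩ := Multiset.exists_cons_of_mem hb'
      obtain ⟨A', B'⟩ := b'
      simp only at heB'
      obtain ⟨A0, rfl⟩ := Multiset.exists_cons_of_mem heA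
      obtain ⟨B0', rfl⟩ := Multiset.exists_cons_of_mem heB'
      have labAB' : labels A' = labels (e ::ₘ B0') :=
        lab _ (Multiset.mem_cons_of_mem (Multiset.mem_cons_self _ _))
      rw [labels_cons] at labAB'
      rw [labels_cons] at labAB
      have hp : Plan G H ((({e} : Multiset (Sym2 V)), ({e} : Multiset (Sym2 V))) ::ₘ
          (A0 + A', B + B0') ::ₘ L1) := by
        refine ⟨?_, ?_, ?_, ?_⟩
        · intro c hc
          rw [Multiset.mem_cons, Multiset.mem_cons] at hc
          rcases hc with rfl | rfl | hc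
          · simp
          · simp only
            intro h0
            have := congrArg Multiset.card h0
            rw [Multiset.card_add, Multiset.card_zero] at this
            rw [Multiset.card_cons] at hb2
            omega
          · exact ne c (Multiset.mem_cons_of_mem (Multiset.mem_cons_of_mem hc))
        · intro c hc
          rw [Multiset.mem_cons, Multiset.mem_cons] at hc
          rcases hc with rfl | rfl | hc
          · rfl
          · simp only [labels_add]
            rw [labAB', ← labAB]
            abel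
          · exact lab c (Multiset.mem_cons_of_mem (Multiset.mem_cons_of_mem hc))
        · rw [← src, Multiset.cons_bind, Multiset.cons_bind, Multiset.cons_bind]
          simp only [Multiset.singleton_add, Multiset.cons_add]
          rw [add_assoc]
        · rw [← tgt, Multiset.cons_bind, Multiset.cons_bind, Multiset.cons_bind]
          simp only [Multiset.singleton_add, Multiset.cons_add, Multiset.add_cons]
          rw [add_assoc]
      have hle := hmax2 _ _ hH hp (by simp)
      -- b' is not a singleton block
      have hA'1 : A'.card ≠ 1 := by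
        intro h1
        obtain ⟨g, rfl⟩ := Multiset.card_eq_one.mp h1
        rw [labels_singleton] at labAB'
        have hc2 := congrArg Multiset.card labAB'
        rw [Multiset.card_add, card_ends, card_ends, card_labels] at hc2
        have hB0 : B0' = 0 := Multiset.card_eq_zero.mp (by omega)
        subst hB0
        rw [labels_zero, add_zero] at labAB'
        have hge := ends_inj labAB'
        subst hge
        have hcount := (hcon g (Multiset.mem_cons_self _ _)).2
        rw [← src, Multiset.cons_bind] at hcount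
        simp at hcount
      unfold sing at hle
      have hb2' : ¬ ((e ::ₘ A0).card = 1) := by omega
      have e1 : Multiset.filter (fun b : Multiset (Sym2 V) × Multiset (Sym2 V) => b.1.card = 1)
          ((e ::ₘ A0, B) ::ₘ (A', e ::ₘ B0') ::ₘ L1) =
          Multiset.filter (fun b => b.1.card = 1) L1 := by
        rw [Multiset.filter_cons_of_neg, Multiset.filter_cons_of_neg]
        · exact hA'1
        · exact hb2'
      have e2 : Multiset.filter (fun b : Multiset (Sym2 V) × Multiset (Sym2 V) => b.1.card = 1)
          ((({e} : Multiset (Sym2 V)), ({e} : Multiset (Sym2 V))) ::ₘ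
            (A0 + A', B + B0') ::ₘ L1) =
          (({e} : Multiset (Sym2 V)), ({e} : Multiset (Sym2 V))) ::ₘ
            Multiset.filter (fun b => b.1.card = 1) ((A0 + A', B + B0') ::ₘ L1) := by
        rw [Multiset.filter_cons_of_pos]
        simp
      rw [e1, e2, Multiset.card_cons] at hle
      have hmono : (L1.filter (fun b => b.1.card = 1)).card ≤
          ((((A0 + A', B + B0') : Multiset (Sym2 V) × Multiset (Sym2 V)) ::ₘ L1).filter
            (fun b => b.1.card = 1)).card :=
        Multiset.card_le_card (Multiset.filter_le_filter _ (Multiset.le_cons_self _ _))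
      omega
  -- Claim 2
  obtain ⟨e, heA, hns⟩ := claim1
  obtain ⟨A0, rfl⟩ := Multiset.exists_cons_of_mem heA
  induction e with
  | _ a b =>
  have hbB : b ∈ labels B := by
    rw [← labAB, labels_cons, ends_mk]; simp
  obtain ⟨y, hf⟩ := mem_labels hbB
  obtain ⟨B0, rfl⟩ := Multiset.exists_cons_of_mem hf
  have hyb : y ≠ b := by
    rintro rfl
    have : s(y, y) ∈ H := by rw [← tgt]; simp
    exact hHs.2 _ this (by simp)
  rw [labels_cons, labels_cons, ends_mk', ends_mk'] at labAB
  have hya : y ≠ a := by
    rintro rfl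
    have hlab0 : labels A0 = labels B0 := by
      have : ({y} + {b} : Multiset V) = {b} + {y} := add_comm _ _
      rw [this] at labAB
      exact add_left_cancel labAB
    have hp : Plan G H ((({s(y, b)} : Multiset (Sym2 V)), ({s(y, b)} : Multiset (Sym2 V))) ::ₘ
        (A0, B0) ::ₘ L0) := by
      refine ⟨?_, ?_, ?_, ?_⟩
      · intro c hc
        rw [Multiset.mem_cons, Multiset.mem_cons] at hc
        rcases hc with rfl | rfl | hc
        · simp
        · simp only
          rintro rfl
          simp at hb2
        · exact ne c (Multiset.mem_cons_of_mem hc)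
      · intro c hc
        rw [Multiset.mem_cons, Multiset.mem_cons] at hc
        rcases hc with rfl | rfl | hc
        · rfl
        · exact hlab0
        · exact lab c (Multiset.mem_cons_of_mem hc)
      · rw [← src, Multiset.cons_bind, Multiset.cons_bind]
        simp only [Multiset.singleton_add, Multiset.cons_add]
      · rw [← tgt, Multiset.cons_bind, Multiset.cons_bind]
        simp only [Multiset.singleton_add, Multiset.cons_add]
        rw [Sym2.eq_swap]
    have := hmax _ _ hH hp
    simp at this
  have hyA : y ∈ labels A0 := by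
    have : y ∈ ({a} + {b} + labels A0 : Multiset V) := by
      rw [labAB]; simp
    simp only [Multiset.mem_add, Multiset.mem_singleton] at this
    rcases this with (h | h) | h
    · exact absurd h hya
    · exact absurd h hyb
    · exact h
  obtain ⟨z, hg⟩ := mem_labels hyA
  obtain ⟨A1, rfl⟩ := Multiset.exists_cons_of_mem hg
  refine ⟨s(b, y) ::ₘ s(z, a) ::ₘ (A1 + L0.bind Prod.fst),
    (({s(b, y)} : Multiset (Sym2 V)), ({s(b, y)} : Multiset (Sym2 V))) ::ₘ
      (s(z, a) ::ₘ A1, B0) ::ₘ L0, ⟨a, b, y, z, ⟨A1 + L0.bind Prod.fst, ?_, rfl⟩, ?_⟩,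
      ⟨?_, ?_, ?_, ?_⟩, ?_⟩
  · rw [← src]; simp only [Multiset.cons_add]
  · intro h; exact hns h.1
  · intro c hc
    rw [Multiset.mem_cons, Multiset.mem_cons] at hc
    rcases hc with rfl | rfl | hc
    · simp
    · exact Multiset.cons_ne_zero
    · exact ne c (Multiset.mem_cons_of_mem hc)
  · intro c hc
    rw [Multiset.mem_cons, Multiset.mem_cons] at hc
    rcases hc with rfl | rfl | hc
    · rfl
    · simp only [labels_cons, ends_mk']
      rw [labels_cons, ends_mk'] at labAB
      have h1 : ({b} + {y} : Multiset V) + ({z} + {a} + labels A1) = {b} + {y} + labels B0 := by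
        rw [← labAB]; abel
      exact add_left_cancel h1
    · exact lab c (Multiset.mem_cons_of_mem hc)
  · rw [Multiset.cons_bind, Multiset.cons_bind]
    simp only [Multiset.singleton_add, Multiset.cons_add]
  · rw [← tgt, Multiset.cons_bind, Multiset.cons_bind]
    simp only [Multiset.singleton_add, Multiset.cons_add]
  · simp

/-! ### optimal plans -/

lemma sing_le (L : Multiset (Multiset (Sym2 V) × Multiset (Sym2 V))) : sing L ≤ L.card :=
  Multiset.card_le_card (Multiset.filter_le _ _)

/-- from a plan with maximum number of blocks, one which also has the most singletons -/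
lemma exists_best {G : Multiset (Sym2 V)} {c : ℕ}
    (hex : ∃ H L, IsSimple H ∧ Plan G H L ∧ L.card = c) :
    ∃ H L, IsSimple H ∧ Plan G H L ∧ L.card = c ∧
      ∀ H' L', IsSimple H' → Plan G H' L' → L'.card = c → sing L' ≤ sing L := by
  classical
  let S : Set ℕ := {s | ∃ H L, IsSimple H ∧ Plan G H L ∧ L.card = c ∧ sing L = s}
  have hne : S.Nonempty := by
    obtain ⟨H, L, h1, h2, h3⟩ := hex
    exact ⟨sing L, H, L, h1, h2, h3, rfl⟩
  have hbdd : BddAbove S := by
    refine ⟨c, ?_⟩
    rintro s ⟨H, L, _, _, h3, rfl⟩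
    rw [← h3]; exact sing_le L
  obtain ⟨H, L, h1, h2, h3, h4⟩ := Nat.sSup_mem hne hbdd
  refine ⟨H, L, h1, h2, h3, ?_⟩
  intro H' L' h1' h2' h3'
  rw [h4]
  exact le_csSup hbdd ⟨H', L', h1', h2', h3', rfl⟩

/-- Building the admissible route. -/
lemma build : ∀ (d : ℕ) (G : Multiset (Sym2 V)) (c : ℕ), G.card = c + d →
    (∃ H L, IsSimple H ∧ Plan G H L ∧ L.card = c) →
    (∀ H L, IsSimple H → Plan G H L → L.card ≤ c) →
    ∃ r : ℕ → Multiset (Sym2 V), IsRoute GoodStep G d r := by
  intro d
  induction d with
  | zero =>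
    intro G c hc hex _
    obtain ⟨H, L, hH, p, hL⟩ := hex
    have : G = H := by
      rw [← p.src, ← p.tgt]
      apply full_eq L p.ne p.lab
      rw [p.src, hc, hL]
      omega
    subst this
    exact ⟨fun _ => G, rfl, fun i hi => absurd hi (Nat.not_lt_zero _), hH⟩
  | succ d ih =>
    intro G c hc hex hmax
    obtain ⟨H, L, hH, p, hL, hbest⟩ := exists_best hex
    subst hL
    obtain ⟨G', L', hstep, p', hL'⟩ := main_step hH p hmax
      (fun H' L' h1 h2 h3 => hbest H' L' h1 h2 h3) (by omega)
    have hcard : G'.card = G.card := by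
      obtain ⟨v₁, v₂, v₃, v₄, ⟨R, h1, h2⟩, _⟩ := hstep
      rw [h1, h2]; simp
    obtain ⟨r, hr0, hr1, hr2⟩ := ih G' (L.card + 1) (by omega) ⟨H, L', hH, p', hL'⟩ (by
      intro H'' L'' h1 h2
      obtain ⟨v₁, v₂, v₃, v₄, hs, _⟩ := hstep
      obtain ⟨L3, p3, h3⟩ := Plan.step ⟨v₁, v₂, v₃, v₄, hs⟩ h2
      have := hmax _ _ h1 p3
      omega)
    refine ⟨fun i => Nat.casesOn i G (fun j => r j), rfl, ?_, hr2⟩
    intro i hi
    cases i with
    | zero => simp only; rw [hr0]; exact hstep
    | succ j => exact hr1 j (by omega)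

/-- lower bound for the length of any route -/
lemma lower : ∀ (n : ℕ) (G : Multiset (Sym2 V)) (r : ℕ → Multiset (Sym2 V)),
    IsRoute Step G n r → ∃ H L, IsSimple H ∧ Plan G H L ∧ G.card ≤ L.card + n := by
  intro n
  induction n with
  | zero =>
    rintro G r ⟨h0, _, hs⟩
    rw [h0] at hs
    refine ⟨G, _, hs, plan_refl G, ?_⟩
    simp
  | succ n ih =>
    rintro G r ⟨h0, h1, hs⟩
    have hstep := h1 0 (Nat.succ_pos n)
    rw [h0] at hstep
    obtain ⟨H, L, hH, p, hc⟩ := ih (r 1) (fun i => r (i + 1))
      ⟨rfl, fun i hi => h1 (i + 1) (by omega), hs⟩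
    obtain ⟨L', p', hL'⟩ := Plan.step hstep p
    refine ⟨H, L', hH, p', ?_⟩
    have hcard : (r 1).card = G.card := by
      obtain ⟨v₁, v₂, v₃, v₄, R, h1, h2⟩ := hstep
      rw [h1, h2]; simp
    omega

lemma count_ends_map (σ : Equiv.Perm V) (e : Sym2 V) : ends (e.map σ) = (ends e).map σ := by
  induction e with
  | _ a b => simp [ends_mk]

lemma labels_map (σ : Equiv.Perm V) (G : Multiset (Sym2 V)) :
    labels (G.map (Sym2.map σ)) = (labels G).map σ := by
  induction G using Multiset.induction_on with
  | empty => rfl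
  | cons e A ih => rw [Multiset.map_cons, labels_cons, labels_cons, Multiset.map_add, ih,
      count_ends_map]

/-- For every loopy multigraph with graphical degree sequence some shortest route to simplicity
uses no swap of two simple edges. -/
theorem result (G : Multiset (Sym2 V)) (hG : Graphical G) :
    ∃ (n : ℕ) (r : ℕ → Multiset (Sym2 V)), IsRoute GoodStep G n r ∧
      ∀ (n' : ℕ) (r' : ℕ → Multiset (Sym2 V)), IsRoute Step G n' r' → n ≤ n' := by
  classical
  obtain ⟨H0, σ, hH0, hdeg⟩ := hG
  -- relabel
  have hsim : IsSimple (H0.map (Sym2.map σ.symm)) := by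
    rw [isSimple_iff] at hH0 ⊢
    refine ⟨hH0.1.map (Sym2.map.injective σ.symm.injective), ?_⟩
    intro e he
    rw [Multiset.mem_map] at he
    obtain ⟨f, hf, rfl⟩ := he
    have := hH0.2 f hf
    rwa [Sym2.isDiag_map σ.symm.injective]
  have hlab : labels G = labels (H0.map (Sym2.map σ.symm)) := by
    rw [labels_map]
    ext v
    have h1 : v = σ.symm (σ v) := by simp
    conv_rhs => rw [h1]
    rw [Multiset.count_map_eq_count' _ _ σ.symm.injective]
    exact (hdeg v).symm
  obtain ⟨L0, p0⟩ := plan_of_labels hlab
  let S : Set ℕ := {c | ∃ H L, IsSimple H ∧ Plan G H L ∧ L.card = c}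
  have hne : S.Nonempty := ⟨L0.card, _, L0, hsim, p0, rfl⟩
  have hbdd : BddAbove S := by
    refine ⟨G.card, ?_⟩
    rintro c ⟨H, L, _, h2, rfl⟩
    exact h2.card_le
  have hmem := Nat.sSup_mem hne hbdd
  set c := sSup S with hc
  have hmax : ∀ H L, IsSimple H → Plan G H L → L.card ≤ c := fun H L h1 h2 =>
    le_csSup hbdd ⟨H, L, h1, h2, rfl⟩
  have hcG : c ≤ G.card := by
    obtain ⟨H, L, _, h2, h3⟩ := hmem
    rw [← h3]; exact h2.card_le
  obtain ⟨r, hr⟩ := build (G.card - c) G c (by omega) hmem hmax
  refine ⟨G.card - c, r, hr, ?_⟩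
  intro n' r' hr'
  obtain ⟨H, L, h1, h2, h3⟩ := lower n' G r' hr'
  have := hmax H L h1 h2
  omega

end Pool.Agent.Results.MP_742338_co.NoSimpleSwaps
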